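import Pool.Agent.H6.RCQ.Stmts5

/-!
# Project RCQ, module TP1: truncation of the arcs of a drawing
-/

set_option autoImplicit false

namespace Pool.Agent.H38.RCQ.TP1

open Pool.Agent.H6.RCQ Set Topology

/-- a common positive bound for finitely many properties -/
lemma exists_pos {ι : Type} [Finite ι] (P : ι → ℝ → Prop)
    (mono : ∀ i a b, 0 < a → a ≤ b → P i b → P i a) (h : ∀ i, ∃ a > 0, P i a) :
    ∃ a > 0, ∀ i, P i a := by
  classical
  choose a ha hP using h
  cases nonempty_fintype ι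
  by_cases hι : Nonempty ι
  · obtain ⟨i0, hi0⟩ := Finite.exists_min a
    exact ⟨a i0, ha i0, fun i => mono i _ _ (ha i0) (hi0 i) (hP i)⟩
  · rw [not_nonempty_iff] at hι
    exact ⟨1, one_pos, fun i => (hι.false i).elim⟩

/-- two continuous maps with disjoint images of compact sets have positive distance -/
lemma exists_dist {A B : Set ℝ} (hA : IsCompact A) (hB : IsCompact B) {f g : ℝ → ℝ × ℝ}
    (hf : ContinuousOn f A) (hg : ContinuousOn g B) (h : ∀ s ∈ A, ∀ t ∈ B, f s ≠ g t) :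
    ∃ a > 0, ∀ s ∈ A, ∀ t ∈ B, a ≤ dist (f s) (g t) := by
  by_cases hne : (A ×ˢ B).Nonempty
  · have hc : ContinuousOn (fun q : ℝ × ℝ => dist (f q.1) (g q.2)) (A ×ˢ B) := by
      exact continuous_dist.comp_continuousOn
        ((hf.comp continuousOn_fst (fun q hq => hq.1)).prodMk
          (hg.comp continuousOn_snd (fun q hq => hq.2)))
    obtain ⟨q, hq, hmin⟩ := (hA.prod hB).exists_isMinOn hne hc
    refine ⟨dist (f q.1) (g q.2), dist_pos.mpr (h _ hq.1 _ hq.2), ?_⟩
    intro s hs t ht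
    exact hmin (show (s, t) ∈ A ×ˢ B from ⟨hs, ht⟩)
  · refine ⟨1, one_pos, ?_⟩
    intro s hs t ht
    exact (hne ⟨(s, t), hs, ht⟩).elim

theorem tp1 : TP1Stmt := by
  classical
  intro V G p γ hV hD
  obtain ⟨hp, _hinj, hpt, hcr⟩ := hD
  -- the points on the arcs
  have hlift : ∀ u v, ∀ t : ℝ, ∀ h0 : 0 ≤ t, ∀ h1 : t ≤ 1,
      (γ u v).extend t = γ u v ⟨t, h0, h1⟩ := by
    intro u v t h0 h1
    exact (γ u v).extend_apply ⟨h0, h1⟩
  have hext0 : ∀ u v, (γ u v).extend 0 = p u := fun u v => (γ u v).extend_zero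
  have hext1 : ∀ u v, (γ u v).extend 1 = p v := fun u v => (γ u v).extend_one
  have hptE : ∀ u v w, G.Adj u v → w ≠ u → w ≠ v → ∀ t ∈ Icc (0 : ℝ) 1,
      (γ u v).extend t ≠ p w := by
    intro u v w huv hwu hwv t ht
    rcases eq_or_lt_of_le ht.1 with h0 | h0
    · rw [← h0, hext0]
      exact fun h => hwu (hp h).symm
    · rcases eq_or_lt_of_le ht.2 with h1 | h1
      · rw [h1, hext1]
        exact fun h => hwv (hp h).symm
      · rw [hlift u v t ht.1 ht.2]
        exact hpt u v w huv ⟨t, ht⟩ h0 h1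
  -- the distance `η`
  obtain ⟨η, hη0, hη⟩ := exists_pos
    (fun (q : V × V × V) a => (q.1 ≠ q.2.1 → a ≤ dist (p q.1) (p q.2.1)) ∧
      (G.Adj q.1 q.2.1 → q.2.2 ≠ q.1 → q.2.2 ≠ q.2.1 → ∀ t ∈ Icc (0 : ℝ) 1,
        a ≤ dist ((γ q.1 q.2.1).extend t) (p q.2.2)))
    (by
      rintro q a b ha hab ⟨h1, h2⟩
      exact ⟨fun h => hab.trans (h1 h), fun h h' h'' t ht => hab.trans (h2 h h' h'' t ht)⟩)
    (by
      rintro ⟨u, v, w⟩
      obtain ⟨a, ha0, ha⟩ : ∃ a > 0, (u ≠ v → a ≤ dist (p u) (p v)) := by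
        by_cases h : u = v
        · exact ⟨1, one_pos, fun h' => (h' h).elim⟩
        · exact ⟨dist (p u) (p v), dist_pos.mpr (fun h' => h (hp h')), fun _ => le_rfl⟩
      obtain ⟨b, hb0, hb⟩ : ∃ b > 0, (G.Adj u v → w ≠ u → w ≠ v → ∀ t ∈ Icc (0 : ℝ) 1,
          b ≤ dist ((γ u v).extend t) (p w)) := by
        by_cases h : G.Adj u v ∧ w ≠ u ∧ w ≠ v
        · obtain ⟨b, hb0, hb⟩ := exists_dist (A := Icc (0 : ℝ) 1) (B := {0}) isCompact_Icc
            isCompact_singleton (f := (γ u v).extend) (g := fun _ => p w)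
            (γ u v).continuous_extend.continuousOn continuousOn_const
            (fun s hs t _ => hptE u v w h.1 h.2.1 h.2.2 s hs)
          exact ⟨b, hb0, fun _ _ _ t ht => hb t ht 0 rfl⟩
        · exact ⟨1, one_pos, fun h1 h2 h3 => (h ⟨h1, h2, h3⟩).elim⟩
      refine ⟨min a b, lt_min ha0 hb0, ?_, ?_⟩
      · exact fun h => (min_le_left _ _).trans (ha h)
      · exact fun h h' h'' t ht => (min_le_right _ _).trans (hb h h' h'' t ht))
  have hdd : ∀ u v, u ≠ v → η ≤ dist (p u) (p v) := fun u v h => (hη (u, v, u)).1 h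
  have hdo : ∀ u v w, G.Adj u v → w ≠ u → w ≠ v → ∀ t ∈ Icc (0 : ℝ) 1,
      η ≤ dist ((γ u v).extend t) (p w) := fun u v w h h' h'' t ht => (hη (u, v, w)).2 h h' h'' t ht
  set ε : ℝ := η / 4 with hε
  have hε0 : 0 < ε := by positivity
  -- the parameters
  have hs : ∀ u v, ∃ s : ℝ, G.Adj u v → 0 < s ∧ s < 1 ∧ dist ((γ u v).extend s) (p u) = ε := by
    intro u v
    by_cases h : G.Adj u v
    · have hc : ContinuousOn (fun t => dist ((γ u v).extend t) (p u)) (Icc (0 : ℝ) 1) :=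
        ((γ u v).continuous_extend.dist continuous_const).continuousOn
      have hiv := intermediate_value_Icc (zero_le_one) hc
      have h1 : ε ∈ Icc (dist ((γ u v).extend 0) (p u)) (dist ((γ u v).extend 1) (p u)) := by
        rw [hext0, hext1, dist_self]
        refine ⟨hε0.le, ?_⟩
        have := hdd v u h.ne'
        linarith
      obtain ⟨s, hs, hse⟩ := hiv h1
      have hse' : dist ((γ u v).extend s) (p u) = ε := hse
      refine ⟨s, fun _ => ⟨?_, ?_, hse'⟩⟩
      · rcases eq_or_lt_of_le hs.1 with h0 | h0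
        · rw [← h0, hext0, dist_self] at hse'
          exact (hε0.ne hse').elim
        · exact h0
      · rcases eq_or_lt_of_le hs.2 with h0 | h0
        · rw [h0, hext1] at hse'
          have := hdd v u h.ne'
          linarith
        · exact h0
    · exact ⟨0, fun h' => (h h').elim⟩
  have hr : ∀ u v, ∃ s : ℝ, G.Adj u v → 0 < s ∧ s < 1 ∧ dist ((γ u v).extend s) (p v) = ε := by
    intro u v
    by_cases h : G.Adj u v
    · have hc : ContinuousOn (fun t => dist ((γ u v).extend t) (p v)) (Icc (0 : ℝ) 1) :=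
        ((γ u v).continuous_extend.dist continuous_const).continuousOn
      have hiv := intermediate_value_Icc' (zero_le_one) hc
      have h1 : ε ∈ Icc (dist ((γ u v).extend 1) (p v)) (dist ((γ u v).extend 0) (p v)) := by
        rw [hext0, hext1, dist_self]
        refine ⟨hε0.le, ?_⟩
        have := hdd u v h.ne
        linarith
      obtain ⟨s, hs, hse⟩ := hiv h1
      have hse' : dist ((γ u v).extend s) (p v) = ε := hse
      refine ⟨s, fun _ => ⟨?_, ?_, hse'⟩⟩
      · rcases eq_or_lt_of_le hs.1 with h0 | h0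
        · rw [← h0, hext0] at hse'
          have := hdd u v h.ne
          linarith
        · exact h0
      · rcases eq_or_lt_of_le hs.2 with h0 | h0
        · rw [h0, hext1, dist_self] at hse'
          exact (hε0.ne hse').elim
        · exact h0
    · exact ⟨0, fun h' => (h h').elim⟩
  choose σ hσ using hs
  choose ρ hρ using hr
  set f : V → V → ℝ → ℝ × ℝ := fun u v x => (γ u v).extend ((1 - x) * σ u v + x * ρ u v) with hf
  have hpar : ∀ u v, G.Adj u v → ∀ x ∈ Icc (0 : ℝ) 1,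
      0 < (1 - x) * σ u v + x * ρ u v ∧ (1 - x) * σ u v + x * ρ u v < 1 := by
    intro u v h x hx
    obtain ⟨a1, a2, _⟩ := hσ u v h
    obtain ⟨b1, b2, _⟩ := hρ u v h
    obtain ⟨x0, x1⟩ := hx
    rcases eq_or_lt_of_le x0 with h0 | h0
    · rw [← h0]
      constructor <;> nlinarith
    · constructor
      · have := mul_pos h0 b1
        have := mul_nonneg (sub_nonneg.mpr x1) a1.le
        linarith
      · have h2 : x * ρ u v < x := by nlinarith
        have h3 : (1 - x) * σ u v ≤ 1 - x := by nlinarith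
        linarith
  have hfc : ∀ u v, Continuous (f u v) := by
    intro u v
    exact (γ u v).continuous_extend.comp (by fun_prop)
  -- the separation
  obtain ⟨δ, hδ0, hδ⟩ := exists_pos
    (fun (q : V × V × V × V) a => G.Adj q.1 q.2.1 → G.Adj q.2.2.1 q.2.2.2 →
      ¬(q.2.2.1 = q.1 ∧ q.2.2.2 = q.2.1) → ¬(q.2.2.1 = q.2.1 ∧ q.2.2.2 = q.1) →
      ∀ s ∈ Icc (0 : ℝ) 1, ∀ t ∈ Icc (0 : ℝ) 1,
        a ≤ dist (f q.1 q.2.1 s) (f q.2.2.1 q.2.2.2 t))
    (by
      intro q a b ha hab h h1 h2 h3 h4 s hs t ht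
      exact hab.trans (h h1 h2 h3 h4 s hs t ht))
    (by
      rintro ⟨u, v, x, y⟩
      by_cases h : G.Adj u v ∧ G.Adj x y ∧ ¬(x = u ∧ y = v) ∧ ¬(x = v ∧ y = u)
      · obtain ⟨h1, h2, h3, h4⟩ := h
        obtain ⟨a, ha0, ha⟩ := exists_dist (A := Icc (0 : ℝ) 1) (B := Icc (0 : ℝ) 1)
          isCompact_Icc isCompact_Icc (hfc u v).continuousOn (hfc x y).continuousOn
          (by
            intro s hs t ht
            obtain ⟨a1, a2⟩ := hpar u v h1 s hs
            obtain ⟨b1, b2⟩ := hpar x y h2 t ht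
            simp only [hf]
            rw [hlift u v _ a1.le a2.le, hlift x y _ b1.le b2.le]
            exact hcr u v x y h1 h2 h3 h4 _ _ a1 a2)
        exact ⟨a, ha0, fun _ _ _ _ => ha⟩
      · exact ⟨1, one_pos, fun h1 h2 h3 h4 => (h ⟨h1, h2, h3, h4⟩).elim⟩)
  refine ⟨ε, min δ ε, f, ?_⟩
  have hm1 : min δ ε ≤ δ := min_le_left _ _
  have hm2 : min δ ε ≤ ε := min_le_right _ _
  refine ⟨hε0, lt_min hδ0 hε0, ?_, ?_, ?_, ?_, ?_, ?_⟩
  · intro u v h
    have := hdd u v h
    linarith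
  · intro u v _
    exact (hfc u v).continuousOn
  · intro u v h
    simp only [hf]
    rw [show (1 - (0 : ℝ)) * σ u v + 0 * ρ u v = σ u v by ring]
    exact (hσ u v h).2.2
  · intro u v h
    simp only [hf]
    rw [show (1 - (1 : ℝ)) * σ u v + 1 * ρ u v = ρ u v by ring]
    exact (hρ u v h).2.2
  · intro u v h w hwu hwv s hs
    have h1 := hpar u v h s hs
    have := hdo u v w h hwu hwv _ ⟨h1.1.le, h1.2.le⟩
    simp only [hf]
    linarith
  · intro u v x y h1 h2 h3 h4 s hs t ht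
    exact hm1.trans (hδ (u, v, x, y) h1 h2 h3 h4 s hs t ht)

end Pool.Agent.H38.RCQ.TP1
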