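import Pool.Agent.H6.RCQ.Stmts5

/-!
# Project RCQ, module TP2: discretisation of a drawing
-/

set_option autoImplicit false

namespace Pool.Agent.H38.RCQ.TP2

open Pool.Agent.H39.RC Pool.Agent.H6.RCQ Set Topology

/-- products of order-connected sets are connected in the grid -/
lemma con_prod {n : ℕ} {A B : Set (Fin n)} (hA : A.OrdConnected) (hB : B.OrdConnected)
    (hA0 : A.Nonempty) (hB0 : B.Nonempty) : Con (GR n) (A ×ˢ B) := by
  -- horizontal moves
  have hh : ∀ j (hj : j ∈ B) (k : ℕ) (i i' : Fin n) (hi : i ∈ A) (hi' : i' ∈ A),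
      i'.val = i.val + k →
      ((GR n).induce (A ×ˢ B)).Reachable ⟨(i, j), ⟨hi, hj⟩⟩ ⟨(i', j), ⟨hi', hj⟩⟩ := by
    intro j hj k
    induction k with
    | zero =>
      intro i i' hi hi' h
      have : i = i' := Fin.ext (by omega)
      subst this
      exact SimpleGraph.Reachable.refl _
    | succ k ih =>
      intro i i' hi hi' h
      have hlt : i'.val - 1 < n := by omega
      have hm : (⟨i'.val - 1, hlt⟩ : Fin n) ∈ A := by
        apply hA.out hi hi'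
        constructor
        · rw [Fin.le_def]; simp only; omega
        · rw [Fin.le_def]; simp only; omega
      refine (ih i ⟨i'.val - 1, hlt⟩ hi hm (by simp only; omega)).trans ?_
      apply SimpleGraph.Adj.reachable
      show (GR n).Adj _ _
      right
      refine ⟨rfl, Or.inl ?_⟩
      show i'.val - 1 + 1 = i'.val
      omega
  have hv : ∀ i (hi : i ∈ A) (k : ℕ) (j j' : Fin n) (hj : j ∈ B) (hj' : j' ∈ B),
      j'.val = j.val + k →
      ((GR n).induce (A ×ˢ B)).Reachable ⟨(i, j), ⟨hi, hj⟩⟩ ⟨(i, j'), ⟨hi, hj'⟩⟩ := by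
    intro i hi k
    induction k with
    | zero =>
      intro j j' hj hj' h
      have : j = j' := Fin.ext (by omega)
      subst this
      exact SimpleGraph.Reachable.refl _
    | succ k ih =>
      intro j j' hj hj' h
      have hlt : j'.val - 1 < n := by omega
      have hm : (⟨j'.val - 1, hlt⟩ : Fin n) ∈ B := by
        apply hB.out hj hj'
        constructor
        · rw [Fin.le_def]; simp only; omega
        · rw [Fin.le_def]; simp only; omega
      refine (ih j ⟨j'.val - 1, hlt⟩ hj hm (by simp only; omega)).trans ?_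
      apply SimpleGraph.Adj.reachable
      show (GR n).Adj _ _
      left
      refine ⟨rfl, Or.inl ?_⟩
      show j'.val - 1 + 1 = j'.val
      omega
  have hh' : ∀ j (hj : j ∈ B) (i i' : Fin n) (hi : i ∈ A) (hi' : i' ∈ A),
      ((GR n).induce (A ×ˢ B)).Reachable ⟨(i, j), ⟨hi, hj⟩⟩ ⟨(i', j), ⟨hi', hj⟩⟩ := by
    intro j hj i i' hi hi'
    rcases le_total i.val i'.val with h | h
    · exact hh j hj (i'.val - i.val) i i' hi hi' (by omega)
    · exact (hh j hj (i.val - i'.val) i' i hi' hi (by omega)).symm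
  have hv' : ∀ i (hi : i ∈ A) (j j' : Fin n) (hj : j ∈ B) (hj' : j' ∈ B),
      ((GR n).induce (A ×ˢ B)).Reachable ⟨(i, j), ⟨hi, hj⟩⟩ ⟨(i, j'), ⟨hi, hj'⟩⟩ := by
    intro i hi j j' hj hj'
    rcases le_total j.val j'.val with h | h
    · exact hv i hi (j'.val - j.val) j j' hj hj' (by omega)
    · exact (hv i hi (j.val - j'.val) j' j hj' hj (by omega)).symm
  have hne : Nonempty ((A ×ˢ B : Set (Fin n × Fin n))) := by
    obtain ⟨a, ha⟩ := hA0
    obtain ⟨b, hb⟩ := hB0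
    exact ⟨⟨(a, b), ⟨ha, hb⟩⟩⟩
  refine ⟨?_⟩
  rintro ⟨⟨i, j⟩, hi, hj⟩ ⟨⟨i', j'⟩, hi', hj'⟩
  exact (hh' j hj i i' hi hi').trans (hv' i' hi' j j' hj hj')

/-- the position of a grid point -/
noncomputable def pos (K : ℕ) (h : ℝ) (a : Fin (2 * K + 1) × Fin (2 * K + 1)) : ℝ × ℝ :=
  (((a.1.val : ℝ) - K) * h, ((a.2.val : ℝ) - K) * h)

/-- the grid points near a point of the plane -/
def near (K : ℕ) (h : ℝ) (z : ℝ × ℝ) (r : ℝ) : Set (Fin (2 * K + 1) × Fin (2 * K + 1)) :=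
  {a | dist (pos K h a) z ≤ r}

lemma near_eq (K : ℕ) (h : ℝ) (z : ℝ × ℝ) (r : ℝ) : near K h z r =
    {i : Fin (2 * K + 1) | |((i.val : ℝ) - K) * h - z.1| ≤ r} ×ˢ
    {i : Fin (2 * K + 1) | |((i.val : ℝ) - K) * h - z.2| ≤ r} := by
  ext ⟨i, j⟩
  simp only [near, pos, mem_ofPred_eq, mem_prod, Prod.dist_eq, Real.dist_eq, max_le_iff]

lemma ordc (K : ℕ) {h : ℝ} (hh : 0 < h) (x r : ℝ) :
    {i : Fin (2 * K + 1) | |((i.val : ℝ) - K) * h - x| ≤ r}.OrdConnected := by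
  constructor
  intro i hi j hj k hk
  rw [mem_ofPred_eq, abs_le] at hi hj ⊢
  have h1 : ((i.val : ℝ)) ≤ k.val := by exact_mod_cast hk.1
  have h2 : ((k.val : ℝ)) ≤ j.val := by exact_mod_cast hk.2
  have h3 : ((i.val : ℝ) - K) * h ≤ ((k.val : ℝ) - K) * h := by nlinarith
  have h4 : ((k.val : ℝ) - K) * h ≤ ((j.val : ℝ) - K) * h := by nlinarith
  constructor
  · linarith [hi.1]
  · linarith [hj.2]

lemma near_con (K : ℕ) {h : ℝ} (hh : 0 < h) (z : ℝ × ℝ) (r : ℝ) (hne : (near K h z r).Nonempty) :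
    Con (GR (2 * K + 1)) (near K h z r) := by
  rw [near_eq] at hne ⊢
  rw [prod_nonempty_iff] at hne
  exact con_prod (ordc K hh _ _) (ordc K hh _ _) hne.1 hne.2

/-- approximation of a real number by a grid coordinate -/
lemma approx (K : ℕ) {h : ℝ} (hh : 0 < h) (x : ℝ) (hx : |x| ≤ (K : ℝ) * h - h) :
    ∃ i : Fin (2 * K + 1), |((i.val : ℝ) - K) * h - x| ≤ h := by
  have h1 := Int.floor_le (x / h)
  have h2 := Int.lt_floor_add_one (x / h)
  rw [abs_le] at hx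
  have e : x / h * h = x := div_mul_cancel₀ x hh.ne'
  have h3 : -(K : ℝ) ≤ x / h - 1 := by
    by_contra hcon
    push Not at hcon
    have := mul_lt_mul_of_pos_right hcon hh
    nlinarith
  have h4 : x / h ≤ (K : ℝ) - 1 := by
    by_contra hcon
    push Not at hcon
    have := mul_lt_mul_of_pos_right hcon hh
    nlinarith
  have h5 : -(K : ℤ) ≤ ⌊x / h⌋ := by
    have : (-(K : ℝ)) < (⌊x / h⌋ : ℝ) := by linarith
    have h6 : (-(K : ℤ)) < ⌊x / h⌋ := by exact_mod_cast this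
    exact h6.le
  have h6 : ⌊x / h⌋ ≤ (K : ℤ) := by
    have : (⌊x / h⌋ : ℝ) ≤ (K : ℝ) := by linarith
    exact_mod_cast this
  refine ⟨⟨(⌊x / h⌋ + K).toNat, by omega⟩, ?_⟩
  have e2 : (((⌊x / h⌋ + K).toNat : ℕ) : ℝ) = (⌊x / h⌋ : ℝ) + K := by
    have : (((⌊x / h⌋ + K).toNat : ℕ) : ℤ) = ⌊x / h⌋ + K := Int.toNat_of_nonneg (by omega)
    exact_mod_cast congrArg (fun z : ℤ => (z : ℝ)) this
  simp only
  rw [e2, abs_le]
  constructor
  · nlinarith
  · nlinarith

lemma approx2 (K : ℕ) {h M : ℝ} (hh : 0 < h) (hK : M ≤ (K : ℝ) * h - h) (z : ℝ × ℝ)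
    (hz : dist z 0 ≤ M) : ∃ a, dist (pos K h a) z ≤ h := by
  rw [Prod.dist_eq, max_le_iff] at hz
  simp only [Prod.fst_zero, Prod.snd_zero, Real.dist_eq, sub_zero] at hz
  obtain ⟨i, hi⟩ := approx K hh z.1 (hz.1.trans hK)
  obtain ⟨j, hj⟩ := approx K hh z.2 (hz.2.trans hK)
  refine ⟨(i, j), ?_⟩
  rw [Prod.dist_eq, max_le_iff]
  exact ⟨hi, hj⟩

/-- the grid points near an arc are connected -/
lemma arc_con (K : ℕ) {h M : ℝ} (hh : 0 < h) (hK : M ≤ (K : ℝ) * h - h) (f : ℝ → ℝ × ℝ)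
    (hf : ContinuousOn f (Icc 0 1)) (hM : ∀ s ∈ Icc (0 : ℝ) 1, dist (f s) 0 ≤ M) :
    Con (GR (2 * K + 1)) {a | ∃ s ∈ Icc (0 : ℝ) 1, dist (pos K h a) (f s) ≤ 2 * h} := by
  classical
  set C : Set (Fin (2 * K + 1) × Fin (2 * K + 1)) :=
    {a | ∃ s ∈ Icc (0 : ℝ) 1, dist (pos K h a) (f s) ≤ 2 * h} with hC
  have hr : ∀ s : Icc (0 : ℝ) 1, ∃ a, dist (pos K h a) (f s) ≤ h := fun s =>
    approx2 K hh hK (f s) (hM s s.2)
  choose r hr using hr
  have hrC : ∀ s, r s ∈ C := fun s => ⟨s, s.2, (hr s).trans (by linarith)⟩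
  -- nearby points are in the same component
  have hloc : ∀ (s : Icc (0 : ℝ) 1) (a b : Fin (2 * K + 1) × Fin (2 * K + 1)) (ha : a ∈ C)
      (hb : b ∈ C), dist (pos K h a) (f s) ≤ 2 * h → dist (pos K h b) (f s) ≤ 2 * h →
      ((GR (2 * K + 1)).induce C).Reachable ⟨a, ha⟩ ⟨b, hb⟩ := by
    intro s a b ha hb h1 h2
    have hsub : near K h (f s) (2 * h) ⊆ C := fun c hc => ⟨s, s.2, hc⟩
    have hc := (near_con K hh (f s) (2 * h) ⟨a, h1⟩).preconnected ⟨a, h1⟩ ⟨b, h2⟩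
    exact hc.map (SimpleGraph.induceHomOfLE (GR (2 * K + 1)) hsub).toHom
  let F : Icc (0 : ℝ) 1 → ((GR (2 * K + 1)).induce C).ConnectedComponent := fun s =>
    ((GR (2 * K + 1)).induce C).connectedComponentMk ⟨r s, hrC s⟩
  have hF : IsLocallyConstant F := by
    rw [IsLocallyConstant.iff_eventually_eq]
    intro s
    have hcs : ContinuousAt (fun t : Icc (0 : ℝ) 1 => f t) s :=
      (continuousOn_iff_continuous_domRestrict.mp hf).continuousAt
    have hev : ∀ᶠ t : Icc (0 : ℝ) 1 in 𝓝 s, dist (f t) (f s) < h :=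
      (Metric.tendsto_nhds.mp hcs) h hh
    filter_upwards [hev] with t ht
    apply SimpleGraph.ConnectedComponent.sound
    apply hloc s
    · calc dist (pos K h (r t)) (f s) ≤ dist (pos K h (r t)) (f t) + dist (f t) (f s) :=
            dist_triangle _ _ _
        _ ≤ 2 * h := by linarith [hr t]
    · linarith [hr s]
  have hconst : ∀ s t, F s = F t := fun s t => hF.apply_eq_of_preconnectedSpace s t
  have hne : Nonempty C := ⟨⟨r ⟨0, by simp⟩, hrC _⟩⟩
  refine ⟨?_⟩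
  rintro ⟨a, ha⟩ ⟨b, hb⟩
  obtain ⟨s, hs, hsa⟩ := id ha
  obtain ⟨t, ht, htb⟩ := id hb
  have h1 := hloc ⟨s, hs⟩ a (r ⟨s, hs⟩) ha (hrC _) hsa (by linarith [hr ⟨s, hs⟩])
  have h2 := hloc ⟨t, ht⟩ b (r ⟨t, ht⟩) hb (hrC _) htb (by linarith [hr ⟨t, ht⟩])
  exact (h1.trans (SimpleGraph.ConnectedComponent.exact (hconst ⟨s, hs⟩ ⟨t, ht⟩))).trans h2.symm

theorem tp2 : TP2Stmt := by
  classical
  intro V G p ε δ f hV hA
  cases nonempty_fintype V
  obtain ⟨hε, hδ, hfar, hcont, hstart, hstop, hout, hsep⟩ := hA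
  -- a common bound
  have hb1 : ∀ u : V, ∃ M : ℝ, dist (p u) 0 ≤ M := fun u => ⟨_, le_rfl⟩
  have hb2 : ∀ q : V × V, ∃ M : ℝ, G.Adj q.1 q.2 → ∀ s ∈ Icc (0 : ℝ) 1,
      dist (f q.1 q.2 s) 0 ≤ M := by
    rintro ⟨u, v⟩
    by_cases h : G.Adj u v
    · have hc : ContinuousOn (fun s => dist (f u v s) 0) (Icc (0 : ℝ) 1) :=
        continuous_dist.comp_continuousOn ((hcont u v h).prodMk continuousOn_const)
      obtain ⟨M, hM⟩ := isCompact_Icc.bddAbove_image hc
      exact ⟨M, fun _ s hs => hM ⟨s, hs, rfl⟩⟩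
    · exact ⟨0, fun h' => (h h').elim⟩
  choose M1 hM1 using hb1
  choose M2 hM2 using hb2
  set M : ℝ := ∑ u, |M1 u| + ∑ q, |M2 q| with hMdef
  have hMp : ∀ u, dist (p u) 0 ≤ M := by
    intro u
    have h1 : |M1 u| ≤ ∑ u, |M1 u| := Finset.single_le_sum (fun i _ => abs_nonneg (M1 i))
      (Finset.mem_univ u)
    have h2 : 0 ≤ ∑ q, |M2 q| := Finset.sum_nonneg (fun i _ => abs_nonneg (M2 i))
    linarith [hM1 u, le_abs_self (M1 u)]
  have hMf : ∀ u v, G.Adj u v → ∀ s ∈ Icc (0 : ℝ) 1, dist (f u v s) 0 ≤ M := by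
    intro u v huv s hs
    have h1 : |M2 (u, v)| ≤ ∑ q, |M2 q| := Finset.single_le_sum (fun i _ => abs_nonneg (M2 i))
      (Finset.mem_univ (u, v))
    have h2 : 0 ≤ ∑ u, |M1 u| := Finset.sum_nonneg (fun i _ => abs_nonneg (M1 i))
    linarith [hM2 (u, v) huv s hs, le_abs_self (M2 (u, v))]
  -- the mesh
  set h : ℝ := δ / 5 with hh
  have hh0 : 0 < h := by positivity
  obtain ⟨K, hK⟩ := exists_nat_ge ((M + h) / h)
  have hK' : M ≤ (K : ℝ) * h - h := by
    rw [div_le_iff₀ hh0] at hK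
    linarith
  set B : V → Set (Fin (2 * K + 1) × Fin (2 * K + 1)) := fun u => near K h (p u) (ε + h) with hB
  set C : V → V → Set (Fin (2 * K + 1) × Fin (2 * K + 1)) := fun u v =>
    {a | ∃ s ∈ Icc (0 : ℝ) 1, dist (pos K h a) (f u v s) ≤ 2 * h} with hC
  have h01 : (0 : ℝ) ∈ Icc (0 : ℝ) 1 := by simp
  have h11 : (1 : ℝ) ∈ Icc (0 : ℝ) 1 := by simp
  refine ⟨2 * K + 1, B, C, ?_, ?_, ?_, ?_, ?_, ?_, ?_⟩
  · intro u
    apply near_con K hh0
    obtain ⟨a, ha⟩ := approx2 K hh0 hK' (p u) (hMp u)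
    exact ⟨a, by show dist _ _ ≤ _; linarith⟩
  · intro u v huv
    rw [Set.disjoint_left]
    intro a ha hb
    have h1 : dist (pos K h a) (p u) ≤ ε + h := ha
    have h2 : dist (pos K h a) (p v) ≤ ε + h := hb
    have h3 := hfar u v huv
    have h4 := dist_triangle_left (p u) (p v) (pos K h a)
    linarith
  · intro u v huv
    exact arc_con K hh0 hK' (f u v) (hcont u v huv) (hMf u v huv)
  · intro u v huv
    obtain ⟨a, ha⟩ := approx2 K hh0 hK' (f u v 0) (hMf u v huv 0 h01)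
    refine ⟨a, ⟨0, h01, by linarith⟩, ?_⟩
    have h1 := dist_triangle (pos K h a) (f u v 0) (p u)
    have h2 := hstart u v huv
    show dist _ _ ≤ _
    linarith
  · intro u v huv
    obtain ⟨a, ha⟩ := approx2 K hh0 hK' (f u v 1) (hMf u v huv 1 h11)
    refine ⟨a, ⟨1, h11, by linarith⟩, ?_⟩
    have h1 := dist_triangle (pos K h a) (f u v 1) (p v)
    have h2 := hstop u v huv
    show dist _ _ ≤ _
    linarith
  · intro u v huv w hwu hwv
    rw [Set.disjoint_left]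
    rintro a ⟨s, hs, ha⟩ hb
    have h2 : dist (pos K h a) (p w) ≤ ε + h := hb
    have h3 := hout u v huv w hwu hwv s hs
    have h4 := dist_triangle_left (f u v s) (p w) (pos K h a)
    linarith
  · intro u v x y h1 h2 h3 h4
    rw [Set.disjoint_left]
    rintro a ⟨s, hs, ha⟩ ⟨t, ht, hb⟩
    have h5 := hsep u v x y h1 h2 h3 h4 s hs t ht
    have h6 := dist_triangle_left (f u v s) (f x y t) (pos K h a)
    linarith

end Pool.Agent.H38.RCQ.TP2
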